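import Pool.Agent.K3h56.E2.Stm
import Pool.Agent.K3h25.RS.Trans
import Pool.Agent.K3h30.RS.Act

/-! The places `v_1, ..., v_r` of `F` (brick PLACES). -/

set_option autoImplicit false
set_option linter.all false

open NumberField IsDedekindDomain

noncomputable section

namespace Pool.Agent.K3h73.E2

open Pool.Agent.K3h30.RS Pool.Agent.K3h56.E2

variable {F H G : Type} [Field F] [NumberField F] [Field H] [NumberField H] [Algebra F H]
  [CommGroup G] [Finite G] [MulSemiringAction G H]

/-- the place `w` lies over `p` -/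
def Below : InfinitePlace F ⊕ HeightOneSpectrum (𝓞 F) → Place H → Prop
  | Sum.inl v, Sum.inl w => w.comap (algebraMap F H) = v
  | Sum.inr v, Sum.inr w => Above {v} w
  | _, _ => False

theorem exists_below (w : Place H) :
    ∃ p : InfinitePlace F ⊕ HeightOneSpectrum (𝓞 F), Below p w := by
  rcases w with w | w
  · exact ⟨Sum.inl _, rfl⟩
  · obtain ⟨v, hv⟩ := exists_above (F := F) w
    exact ⟨Sum.inr v, hv⟩

theorem below_unique {p p' : InfinitePlace F ⊕ HeightOneSpectrum (𝓞 F)} {w : Place H}
    (h : Below p w) (h' : Below p' w) : p = p' := by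
  rcases w with w | w <;> rcases p with p | p <;> rcases p' with p' | p'
  all_goals first | exact h.elim | exact h'.elim | skip
  · have h1 : w.comap (algebraMap F H) = p := h
    have h2 : w.comap (algebraMap F H) = p' := h'
    rw [← h1, ← h2]
  · have h1 := above_singleton.1 (show Above {p} w from h)
    have h2 := above_singleton.1 (show Above {p'} w from h')
    have h3 : p = p' := HeightOneSpectrum.ext (by rw [← h1, ← h2])
    rw [h3]

theorem exists_over (p : InfinitePlace F ⊕ HeightOneSpectrum (𝓞 F)) :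
    ∃ w : Place H, Below p w := by
  rcases p with v | v
  · obtain ⟨w, hw⟩ := InfinitePlace.comap_surjective (K := H) v
    exact ⟨Sum.inl w, hw⟩
  · obtain ⟨w, hw⟩ := (Pool.Agent.K3h25.RS.t_OVER F H v).1
    exact ⟨Sum.inr w, hw⟩

theorem norm_eq (w w' : HeightOneSpectrum (𝓞 H)) (γ : G)
    (h : ∀ x : H, w.valuation H x = w'.valuation H (γ • x)) :
    Ideal.absNorm w.asIdeal = Ideal.absNorm w'.asIdeal := by
  let e : 𝓞 H ≃+* 𝓞 H := MulSemiringAction.toRingEquiv G (𝓞 H) γ
  have h1 : w.asIdeal = w'.asIdeal.comap (e : 𝓞 H →+* 𝓞 H) := by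
    ext x
    rw [Ideal.mem_comap, ← HeightOneSpectrum.valuation_lt_one_iff_mem (K := H),
      ← HeightOneSpectrum.valuation_lt_one_iff_mem (K := H)]
    show w.valuation H (x : H) < 1 ↔ w'.valuation H (γ • (x : H)) < 1
    rw [← h]
  have h2 : w'.asIdeal = w.asIdeal.map (e : 𝓞 H →+* 𝓞 H) := by
    rw [h1]
    exact (Ideal.map_comap_of_surjective (e : 𝓞 H →+* 𝓞 H) e.surjective w'.asIdeal).symm
  rw [Ideal.absNorm_apply, Ideal.absNorm_apply, Submodule.cardQuot_apply,
    Submodule.cardQuot_apply]
  exact Nat.card_congr (Ideal.quotientEquiv w.asIdeal w'.asIdeal e h2).toEquiv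

theorem toNN_congr {e e' : NNReal} (h : e = e') (he : e ≠ 0) (he' : e' ≠ 0)
    (z : WithZero (Multiplicative ℤ)) :
    WithZeroMulInt.toNNReal he z = WithZeroMulInt.toNNReal he' z := by
  subst h
  rfl

theorem conj_of_below [IsGaloisGroup G F H] {p : InfinitePlace F ⊕ HeightOneSpectrum (𝓞 F)}
    {w w' : Place H} (h : Below p w) (h' : Below p w') : Conj G w w' := by
  rcases w with w | w <;> rcases w' with w' | w' <;> rcases p with p | p
  all_goals first | exact h.elim | exact h'.elim | skip
  · have h1 : w.comap (algebraMap F H) = w'.comap (algebraMap F H) :=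
      Eq.trans (show w.comap (algebraMap F H) = p from h)
        (show w'.comap (algebraMap F H) = p from h').symm
    haveI : IsGalois F H := IsGaloisGroup.isGalois G F H
    obtain ⟨σ, hσ⟩ := InfinitePlace.exists_smul_eq_of_comap_eq h1
    refine ⟨(IsGaloisGroup.mulEquivCongr G (H ≃ₐ[F] H) F H).symm σ, fun x => ?_⟩
    have h2 : (IsGaloisGroup.mulEquivCongr G (H ≃ₐ[F] H) F H).symm σ • x = σ x := by
      rw [IsGaloisGroup.mulEquivCongr_symm_apply_smul]
      rfl
    rw [h2]
    have h3 : w' (σ x) = w x := by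
      rw [← hσ, InfinitePlace.smul_apply, AlgEquiv.symm_apply_apply]
    have h4 : w'.mult = w.mult := by
      unfold InfinitePlace.mult
      rw [← hσ, InfinitePlace.isReal_smul_iff]
    show w x ^ w.mult = w' (σ x) ^ w'.mult
    rw [h3, h4]
  · obtain ⟨γ, hγ⟩ := (Pool.Agent.K3h25.RS.t_TRANS F H G p w' h').2 w h
    refine ⟨γ, fun x => ?_⟩
    show HeightOneSpectrum.adicAbv H w x = HeightOneSpectrum.adicAbv H w' (γ • x)
    rw [HeightOneSpectrum.adicAbv_def, HeightOneSpectrum.adicAbv_def, hγ]
    congr 1
    apply toNN_congr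
    rw [norm_eq w w' γ hγ]

theorem inf_two (w : InfinitePlace H) : w (2 : H) = 2 := by
  rw [← InfinitePlace.norm_embedding_eq, map_ofNat]
  simp

theorem av_two (w : InfinitePlace H) : 1 < av (Sum.inl w) (2 : H) := by
  show 1 < w (2 : H) ^ w.mult
  rw [inf_two]
  exact one_lt_pow₀ (by norm_num) InfinitePlace.mult_pos.ne'

theorem av_two' (w : HeightOneSpectrum (𝓞 H)) : av (Sum.inr w) (2 : H) ≤ 1 := by
  have h := HeightOneSpectrum.adicAbv_coe_le_one w (K := H)
    (HeightOneSpectrum.one_lt_absNorm_nnreal w) (2 : 𝓞 H)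
  rw [map_ofNat] at h
  exact h

theorem below_of_conj [IsGaloisGroup G F H] {p p' : InfinitePlace F ⊕ HeightOneSpectrum (𝓞 F)}
    {w w' : Place H} (h : Below p w) (h' : Below p' w') (hc : Conj G w w') : p = p' := by
  obtain ⟨γ, hγ⟩ := hc
  haveI : SMulCommClass G F H := (inferInstance : IsGaloisGroup G F H).commutes
  have hF : ∀ x : F, γ • algebraMap F H x = algebraMap F H x := fun x => smul_algebraMap γ x
  have h2 : γ • (2 : H) = 2 := by
    have := hF 2
    rwa [map_ofNat] at this
  rcases w with w | w <;> rcases w' with w' | w' <;> rcases p with p | p <;>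
    rcases p' with p' | p'
  all_goals first | exact h.elim | exact h'.elim | skip
  · have h3 : w.mult = w'.mult := by
      have h4 : w (2 : H) ^ w.mult = w' (γ • (2 : H)) ^ w'.mult := hγ 2
      rw [h2, inf_two, inf_two] at h4
      exact pow_right_injective₀ (by norm_num) (by norm_num) h4
    have h1 : w.comap (algebraMap F H) = p := h
    have h1' : w'.comap (algebraMap F H) = p' := h'
    have h5 : p = p' := by
      rw [← h1, ← h1']
      refine InfinitePlace.ext _ _ fun x => ?_
      rw [InfinitePlace.comap_apply, InfinitePlace.comap_apply]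
      have h4 : w (algebraMap F H x) ^ w.mult = w' (γ • algebraMap F H x) ^ w'.mult := hγ _
      rw [hF, ← h3] at h4
      exact (pow_left_inj₀ (apply_nonneg _ _) (apply_nonneg _ _) InfinitePlace.mult_pos.ne').1 h4
    rw [h5]
  · have h3 : av (Sum.inl w) (2 : H) = av (Sum.inr w') (γ • (2 : H)) := hγ 2
    rw [h2] at h3
    have h4 := av_two w
    have h5 := av_two' w'
    linarith
  · have h3 : av (Sum.inr w) (2 : H) = av (Sum.inl w') (γ • (2 : H)) := hγ 2
    rw [h2] at h3
    have h4 := av_two w'
    have h5 := av_two' w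
    linarith
  · have h1 := above_singleton.1 (show Above {p} w from h)
    have h1' := above_singleton.1 (show Above {p'} w' from h')
    have h5 : p = p' := by
      apply HeightOneSpectrum.ext
      rw [← h1, ← h1']
      ext x
      rw [Ideal.mem_comap, Ideal.mem_comap]
      have key : ∀ (u : HeightOneSpectrum (𝓞 H)) (y : 𝓞 H),
          HeightOneSpectrum.adicAbv H u (y : H) < 1 ↔ y ∈ u.asIdeal := fun u y =>
        u.adicAbv_coe_lt_one_iff (HeightOneSpectrum.one_lt_absNorm_nnreal u) y
      rw [← key, ← key]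
      have h4 : HeightOneSpectrum.adicAbv H w (algebraMap F H (x : F)) =
        HeightOneSpectrum.adicAbv H w' (γ • algebraMap F H (x : F)) := hγ _
      rw [hF] at h4
      have h6 : ((algebraMap (𝓞 F) (𝓞 H) x : 𝓞 H) : H) = algebraMap F H (x : F) := rfl
      rw [h6, h4]
    rw [h5]

theorem fixes_conj {w w' : Place H} (hc : Conj G w w') {γ : G} (h : Fixes w' γ) : Fixes w γ := by
  obtain ⟨δ, hδ⟩ := hc
  intro x
  rw [hδ, hδ, smul_comm, h]

theorem t_PLACES : S_PLACES := by
  intro F H G _ _ _ _ _ _ _ _ _ D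
  choose f hf using fun a : Fin D.r => exists_below (F := F) (D.w a)
  have hin : ∀ (p : InfinitePlace F ⊕ HeightOneSpectrum (𝓞 F)) (w : Place H), Below p w →
      (InS (D.S : Set (HeightOneSpectrum (𝓞 F))) w ↔ InSF D p) := by
    intro p w h
    rcases w with w | w <;> rcases p with p | p
    all_goals first | exact h.elim | skip
    · exact Iff.rfl
    · show Above _ w ↔ p ∈ D.S
      rw [above_iff (show Above {p} w from h)]
      exact Finset.mem_coe
  have hspl : ∀ (χ : G →* ℂˣ) (p : InfinitePlace F ⊕ HeightOneSpectrum (𝓞 F)),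
      SplAt H χ p ↔ ∀ w : Place H, Below p w → ∀ γ : G, Fixes w γ → χ γ = 1 := by
    intro χ p
    rcases p with p | p
    · constructor
      · intro h w hw
        rcases w with w | w
        · exact h w hw
        · exact hw.elim
      · intro h w hw
        exact h (Sum.inl w) hw
    · constructor
      · intro h w hw
        rcases w with w | w
        · exact hw.elim
        · exact h w hw
      · intro h w hw
        exact h (Sum.inr w) hw
  have hrange : ∀ (p : InfinitePlace F ⊕ HeightOneSpectrum (𝓞 F)) (w : Place H), Below p w →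
      ((∀ i, ¬ Conj G w (D.w i)) ↔ p ∉ Set.range f) := by
    intro p w hw
    constructor
    · rintro h ⟨a, rfl⟩
      exact h a (conj_of_below hw (hf a))
    · intro h i hc
      exact h ⟨i, (below_of_conj hw (hf i) hc).symm⟩
  refine ⟨f, ?_, ?_, ?_, ?_, ?_, ?_, ?_⟩
  · intro a b hab
    refine D.distinct a b (conj_of_below (hf a) ?_)
    rw [hab]
    exact hf b
  · intro a w hw
    have h1 : Below (Sum.inl (w.comap (algebraMap F H))) (D.w a) := by
      rw [hw]
      rfl
    exact below_unique (hf a) h1
  · intro a w hw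
    have h1 := hf a
    have h2 := (hin _ _ h1).1 (D.inS a)
    rw [hw] at h1
    rcases hfa : f a with v | v
    · rw [hfa] at h1
      exact h1.elim
    · rw [hfa] at h1 h2
      exact ⟨v, rfl, h2, h1⟩
  · intro χ a
    rw [hspl]
    intro w hw γ hγ
    rw [D.splits a γ (fixes_conj (conj_of_below (hf a) hw) hγ), map_one]
  · obtain ⟨u, h1, h2⟩ := D.more
    obtain ⟨p, hp⟩ := exists_below (F := F) u
    exact ⟨p, (hin p u hp).1 h1, (hrange p u hp).1 h2⟩
  · intro χ hχ
    constructor
    · rintro (h | h)
      · intro p hp hs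
        by_contra hn
        obtain ⟨w, hw⟩ := exists_over (H := H) p
        obtain ⟨γ, h1, h2⟩ := h w ((hin p w hw).2 hp) ((hrange p w hw).2 hn)
        exact h2 ((hspl χ p).1 hs w hw γ h1)
      · exact absurd h.1 hχ
    · intro h
      left
      intro w hw hn
      obtain ⟨p, hp⟩ := exists_below (F := F) w
      have h1 : ¬ SplAt H χ p := fun hs =>
        (hrange p w hp).1 hn (h p ((hin p w hp).1 hw) hs)
      rw [hspl] at h1
      push Not at h1
      obtain ⟨w', h2, γ, h3, h4⟩ := h1
      exact ⟨γ, fixes_conj (conj_of_below hp h2) h3, h4⟩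
  · constructor
    · rintro (h | h)
      · exfalso
        obtain ⟨u, h1, h2⟩ := D.more
        obtain ⟨γ, -, h3⟩ := h u h1 h2
        exact h3 rfl
      · intro p p' hp hp' hn hn'
        obtain ⟨w, hw⟩ := exists_over (H := H) p
        obtain ⟨w', hw'⟩ := exists_over (H := H) p'
        exact below_of_conj hw hw' (h.2 w w' ((hin p w hw).2 hp) ((hin p' w' hw').2 hp')
          ((hrange p w hw).2 hn) ((hrange p' w' hw').2 hn'))
    · intro h
      right
      refine ⟨rfl, fun w w' hw hw' hn hn' => ?_⟩
      obtain ⟨p, hp⟩ := exists_below (F := F) w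
      obtain ⟨p', hp'⟩ := exists_below (F := F) w'
      have h1 := h p p' ((hin p w hp).1 hw) ((hin p' w' hp').1 hw') ((hrange p w hp).1 hn)
        ((hrange p' w' hp').1 hn')
      subst h1
      exact conj_of_below hp hp'

end Pool.Agent.K3h73.E2
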